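import Pool.Agent.W848.N2.Stm

set_option autoImplicit false

namespace Pool.Agent.W303.N2

open Finset Pool.Agent.W848.N2

section count

variable {V : Type} [Fintype V]

open scoped Classical in
lemma cnt_eq (P : V → Prop) :
    (({v | P v}.ncard : ℕ) : ℝ) = ∑ v, if P v then (1 : ℝ) else 0 := by
  rw [Finset.sum_boole, Set.ncard_eq_toFinset_card']
  congr 2
  ext v
  simp

lemma int_step (β y : ℝ) (hβ : 0 ≤ β) :
    ∫ s in (0 : ℝ)..β, (if s ≤ y then (1 : ℝ) else 0) = max (min β y) 0 := by
  rw [intervalIntegral.integral_of_le hβ]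
  have h : (fun s : ℝ => if s ≤ y then (1 : ℝ) else 0) = (Set.Iic y).indicator 1 := by
    funext s
    simp [Set.indicator]
  rw [h, MeasureTheory.integral_indicator_one measurableSet_Iic,
    MeasureTheory.measureReal_restrict_apply measurableSet_Iic, Set.inter_comm,
    Set.Ioc_inter_Iic, Real.volume_real_Ioc]
  simp

lemma int_able (a b y : ℝ) :
    IntervalIntegrable (fun s : ℝ => if s ≤ y then (1 : ℝ) else 0) MeasureTheory.volume a b := by
  apply Antitone.intervalIntegrable
  intro s t hst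
  by_cases h1 : t ≤ y
  · have h2 : s ≤ y := hst.trans h1
    simp [h1, h2]
  · simp only [h1, if_false]
    split_ifs <;> norm_num

lemma int_sum (a b : ℝ) (y : V → ℝ) :
    IntervalIntegrable (fun s : ℝ => ∑ v, if s ≤ y v then (1 : ℝ) else 0)
      MeasureTheory.volume a b := by
  have h := IntervalIntegrable.sum (Finset.univ : Finset V) fun v _ => int_able a b (y v)
  have e : (∑ i ∈ (Finset.univ : Finset V), fun s : ℝ => if s ≤ y i then (1 : ℝ) else 0) =
      fun s : ℝ => ∑ v, if s ≤ y v then (1 : ℝ) else 0 := by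
    funext s
    rw [Finset.sum_apply]
  rw [e] at h
  exact h

/-- comparison of truncated sums -/
lemma layer (a b : V → ℝ) (β : ℝ) (hβ : 0 ≤ β)
    (h : ∀ s, 0 < s → s ≤ β →
      (({v | s ≤ a v}.ncard : ℕ) : ℝ) ≤ 3 * (({v | 3 * s ≤ b v}.ncard : ℕ) : ℝ)) :
    ∑ v, max (min β (a v)) 0 ≤ ∑ v, max (min (3 * β) (b v)) 0 := by
  classical
  have e1 : ∑ v, max (min β (a v)) 0 =
      ∫ s in (0 : ℝ)..β, ∑ v, (if s ≤ a v then (1 : ℝ) else 0) := by
    rw [intervalIntegral.integral_finsetSum fun v _ => int_able _ _ _]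
    exact Finset.sum_congr rfl fun v _ => (int_step β (a v) hβ).symm
  have e2 : ∑ v, max (min (3 * β) (b v)) 0 =
      ∫ s in (0 : ℝ)..β, 3 * ∑ v, (if s ≤ b v / 3 then (1 : ℝ) else 0) := by
    rw [intervalIntegral.integral_const_mul,
      intervalIntegral.integral_finsetSum fun v _ => int_able _ _ _, Finset.mul_sum]
    refine Finset.sum_congr rfl fun v _ => ?_
    rw [int_step β (b v / 3) hβ]
    rw [mul_max_of_nonneg _ _ (by norm_num : (0 : ℝ) ≤ 3), mul_min_of_nonneg _ _
      (by norm_num : (0 : ℝ) ≤ 3), mul_zero, mul_div_cancel₀ _ (by norm_num : (3 : ℝ) ≠ 0)]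
  rw [e1, e2]
  refine intervalIntegral.integral_mono_on_of_le_Ioo hβ ?_ ?_ ?_
  · exact int_sum _ _ _
  · exact (int_sum _ _ _).const_mul 3
  · intro s hs
    have h1 := h s hs.1 hs.2.le
    rw [cnt_eq, cnt_eq] at h1
    refine h1.trans (le_of_eq ?_)
    congr 1
    refine Finset.sum_congr rfl fun v _ => ?_
    have h2 : 3 * s ≤ b v ↔ s ≤ b v / 3 := by
      rw [le_div_iff₀ (by norm_num : (0 : ℝ) < 3), mul_comm]
    simp only [h2]

end count

section graph

variable {V : Type} [Fintype V] {R : V → V → Prop}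

/-- the number of vertices which are not adjacent to `x` -/
lemma nonadj (hR : Deg R) (x : V) :
    {v | ¬ R x v ∧ ¬ R v x}.ncard ≤ {s | R x s ∧ R s x}.ncard := by
  classical
  have h1 := hR.1 x
  have h2 := hR.2 x
  have h3 := Set.ncard_union_add_ncard_inter {b | R x b} {b | R b x}
    (Set.toFinite _) (Set.toFinite _)
  have h4 : ({b | R x b} ∪ {b | R b x} : Set V)ᶜ = {v | ¬ R x v ∧ ¬ R v x} := by
    ext v
    simp
  have h5 := Set.ncard_add_ncard_compl ({b | R x b} ∪ {b | R b x} : Set V)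
  rw [h4, Nat.card_eq_fintype_card] at h5
  have h6 : ({b | R x b} ∩ {b | R b x} : Set V) = {s | R x s ∧ R s x} := by
    ext v
    simp
  rw [h6] at h3
  omega

/-- no transitive 4-cycle of negative weight -/
def H4 (R : V → V → Prop) (w : V → ℝ) : Prop :=
  ∀ a b c e, R a b → R b c → R c e → R a e → 0 ≤ w a + w b + w c + w e

lemma dig {w : V → ℝ} (h : H4 R w) {x s u : V} (hs : R x s ∧ R s x) (hu : R x u ∨ R u x) :
    0 ≤ w s + w u + 2 * w x := by
  rcases hu with hu | hu
  · have := h x s x u hs.1 hs.2 hu hu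
    linarith
  · have := h u x s x hu hs.1 hs.2 hu
    linarith

lemma level (hK : S_K4) (hT : S_TOUR) (hR : Deg R) {w : V → ℝ} (h : H4 R w) {x0 u0 : V}
    (hu0 : R x0 u0 ∨ R u0 x0) (hmin : w x0 ≤ w u0) (s : ℝ) (hs0 : 0 < s) (hs : s ≤ - w u0) :
    (({v | s ≤ - w v}.ncard : ℕ) : ℝ) ≤ 3 * (({v | 3 * s ≤ w v}.ncard : ℕ) : ℝ) := by
  by_contra hcon
  push Not at hcon
  have hcon' : 3 * {v | 3 * s ≤ w v}.ncard < {v | s ≤ - w v}.ncard := by exact_mod_cast hcon
  have key : ∀ x ∈ {v | s ≤ - w v}, (∃ y ∈ {v | s ≤ - w v}, R x y ∨ R y x) →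
      {s | R x s ∧ R s x}.ncard ≤ {v | 3 * s ≤ w v}.ncard := by
    rintro x hx ⟨y, hy, hxy⟩
    refine Set.ncard_le_ncard ?_ (Set.toFinite _)
    intro z hz
    have h1 := dig h hz hxy
    have hx' : s ≤ - w x := hx
    have hy' : s ≤ - w y := hy
    change 3 * s ≤ w z
    linarith
  have hx0 : x0 ∈ {v | s ≤ - w v} := by
    change s ≤ - w x0; linarith
  have hu0' : u0 ∈ {v | s ≤ - w v} := hs
  obtain ⟨v, hv, hvv⟩ := hK V R hR {v | s ≤ - w v} {v | 3 * s ≤ w v}.ncard
    ⟨x0, hx0, key x0 hx0 ⟨u0, hu0', hu0⟩⟩ key hcon'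
  obtain ⟨a, b, c, e, h1, h2, h3, h4⟩ := hT V R v hvv
  have h5 := h _ _ _ _ h1 h2 h3 h4
  have ha : s ≤ - w (v a) := hv a
  have hb : s ≤ - w (v b) := hv b
  have hc : s ≤ - w (v c) := hv c
  have he : s ≤ - w (v e) := hv e
  linarith

lemma main4 (hK : S_K4) (hT : S_TOUR) [Nonempty V] (hR : Deg R) {w : V → ℝ} (h : H4 R w) :
    0 ≤ ∑ v, w v := by
  classical
  obtain ⟨x0, hx0⟩ := Finite.exists_min w
  by_cases hc : 0 ≤ w x0
  · exact Finset.sum_nonneg fun v _ => hc.trans (hx0 v)
  push Not at hc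
  have hne : ({u | R x0 u ∨ R u x0} : Set V).Nonempty := by
    have h1 := hR.1 x0
    have h2 : 0 < Fintype.card V := Fintype.card_pos
    have h3 : 0 < {b | R x0 b}.ncard := by omega
    obtain ⟨b, hb⟩ := (Set.ncard_pos (Set.toFinite _)).1 h3
    exact ⟨b, Or.inl hb⟩
  obtain ⟨u0, hu0, hu0min⟩ := Set.exists_min_image {u | R x0 u ∨ R u x0} w (Set.toFinite _) hne
  have hD1 : ∀ s, (R x0 s ∧ R s x0) → - w x0 ≤ w s := by
    intro s hs
    have := dig h hs (Or.inl hs.1)
    linarith
  have hD2 : ∀ s, (R x0 s ∧ R s x0) → - 2 * w x0 - w u0 ≤ w s := by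
    intro s hs
    have := dig h hs hu0
    linarith
  have hp1 : {v | w v < w u0}.ncard ≤ {s | R x0 s ∧ R s x0}.ncard := by
    refine le_trans (Set.ncard_le_ncard ?_ (Set.toFinite _)) (nonadj hR x0)
    intro v hv
    have hv' : w v < w u0 := hv
    constructor
    · intro h1
      exact absurd (hu0min v (Or.inl h1)) (not_le.2 hv')
    · intro h1
      exact absurd (hu0min v (Or.inr h1)) (not_le.2 hv')
  rcases le_or_gt 0 (w u0) with hα | hα
  · -- the least weight of a neighbour is nonnegative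
    have h1 : {v | w v < 0}.ncard ≤ {v | - w x0 ≤ w v}.ncard := by
      refine le_trans (Set.ncard_le_ncard ?_ (Set.toFinite _))
        (hp1.trans (Set.ncard_le_ncard ?_ (Set.toFinite _)))
      · intro v hv
        exact lt_of_lt_of_le hv hα
      · intro s hs
        exact hD1 s hs
    have h2 : ((({v | w v < 0}.ncard : ℕ)) : ℝ) ≤ ((({v | - w x0 ≤ w v}.ncard : ℕ)) : ℝ) := by
      exact_mod_cast h1
    rw [cnt_eq, cnt_eq] at h2
    have h3 : ∑ v, w v ≥ ∑ v, ((- w x0) * (if - w x0 ≤ w v then (1 : ℝ) else 0) +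
        (w x0) * (if w v < 0 then (1 : ℝ) else 0)) := by
      refine Finset.sum_le_sum fun v _ => ?_
      by_cases h4 : - w x0 ≤ w v
      · have h5 : ¬ w v < 0 := by linarith
        simp only [h4, h5, if_true, if_false]
        linarith
      · by_cases h5 : w v < 0
        · simp only [h4, h5, if_true, if_false]
          linarith [hx0 v]
        · simp only [h4, h5, if_false]
          linarith
    rw [Finset.sum_add_distrib, ← Finset.mul_sum, ← Finset.mul_sum] at h3
    nlinarith
  · -- the least weight of a neighbour is negative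
    have h1 : {v | w v < w u0}.ncard ≤ {v | - 2 * w x0 - w u0 ≤ w v}.ncard :=
      hp1.trans (Set.ncard_le_ncard (fun s hs => hD2 s hs) (Set.toFinite _))
    have h2 : ((({v | w v < w u0}.ncard : ℕ)) : ℝ) ≤
        ((({v | - 2 * w x0 - w u0 ≤ w v}.ncard : ℕ)) : ℝ) := by
      exact_mod_cast h1
    rw [cnt_eq, cnt_eq] at h2
    have hL := layer (fun v => - w v) w (- w u0) (by linarith) (fun s hs0 hs =>
      level hK hT hR h hu0 (hx0 u0) s hs0 hs)
    have h3 : ∑ v, w v ≥ ∑ v, (((max (min (3 * (- w u0)) (w v)) 0) +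
        (2 * (- w x0 + w u0)) * (if - 2 * w x0 - w u0 ≤ w v then (1 : ℝ) else 0)) -
        ((max (min (- w u0) (- w v)) 0) +
        (- w x0 + w u0) * (if w v < w u0 then (1 : ℝ) else 0))) := by
      refine Finset.sum_le_sum fun v _ => ?_
      have hxu : w x0 ≤ w u0 := hx0 u0
      have hxv : w x0 ≤ w v := hx0 v
      by_cases h4 : - 2 * w x0 - w u0 ≤ w v
      · have h5 : ¬ w v < w u0 := by linarith
        have h6 : max (min (- w u0) (- w v)) 0 = 0 := by
          apply max_eq_right
          exact (min_le_right _ _).trans (by linarith)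
        have h7 : max (min (3 * (- w u0)) (w v)) 0 ≤ 3 * (- w u0) :=
          max_le (min_le_left _ _) (by linarith)
        simp only [h4, h5, if_true, if_false]
        rw [h6]
        linarith
      · by_cases h5 : w v < w u0
        · have h6 : max (min (- w u0) (- w v)) 0 = - w u0 := by
            rw [min_eq_left (by linarith), max_eq_left (by linarith)]
          have h7 : max (min (3 * (- w u0)) (w v)) 0 = 0 := by
            apply max_eq_right
            exact (min_le_right _ _).trans (by linarith)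
          simp only [h4, h5, if_true, if_false]
          rw [h6, h7]
          linarith
        · simp only [h4, h5, if_false]
          have h6 : min (- w u0) (- w v) = - w v := min_eq_right (by linarith)
          rw [h6]
          rcases le_total 0 (w v) with h8 | h8
          · rw [max_eq_right (by linarith : - w v ≤ 0)]
            have : max (min (3 * (- w u0)) (w v)) 0 ≤ w v := max_le (min_le_right _ _) h8
            linarith
          · rw [max_eq_left (by linarith : 0 ≤ - w v),
              max_eq_right ((min_le_right _ _).trans h8)]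
            linarith
    rw [Finset.sum_sub_distrib, Finset.sum_add_distrib, Finset.sum_add_distrib,
      ← Finset.mul_sum, ← Finset.mul_sum] at h3
    have h9 : 0 ≤ - w x0 + w u0 := by linarith [hx0 u0]
    have h10 : 0 ≤ ∑ v, (if w v < w u0 then (1 : ℝ) else 0) :=
      Finset.sum_nonneg fun v _ => by split_ifs <;> norm_num
    nlinarith

end graph

lemma pw_of {V : Type} (R : V → V → Prop) (d : Fin 4 → Bool) (f : Fin 4 → V)
    (h : ∀ i : Fin 4, (d i = true → R (f i) (f (i + 1))) ∧ (d i = false → R (f (i + 1)) (f i))) :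
    PW R d f := by
  intro i j hij
  have e : j = i + 1 := by
    apply Fin.ext
    rw [hij, Fin.val_add]
    rfl
  rw [e]
  exact h i

theorem t_FC4 : S_ROT → S_K4 → S_TOUR → S_FC4 := by
  intro hROT hK hT d hd V _ _ R hR w hw
  obtain ⟨d', h1, h2, h3⟩ := hROT 4 (by norm_num) d hd
  refine main4 hK hT hR ?_
  intro a b c e hab hbc hce hae
  have key : ∃ f' : Fin 4 → V, PW R d' f' ∧ ∑ i, w (f' i) = w a + w b + w c + w e := by
    have h12 := h1 2 (by norm_num)
    simp only [ht, Fin.sum_univ_four] at h12 h2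
    rcases h0 : d' 0 with _ | _ <;> rcases h1' : d' 1 with _ | _ <;>
      rcases h2' : d' 2 with _ | _ <;> rcases h3' : d' 3 with _ | _ <;>
      simp [h0, h1', h2', h3', sg] at h12 h2
    · refine ⟨![e, a, b, c], pw_of R d' _ fun i => ?_, ?_⟩
      · fin_cases i
        · exact ⟨fun h => by simp [h0] at h, fun _ => hae⟩
        · exact ⟨fun _ => hab, fun h => by simp [h1'] at h⟩
        · exact ⟨fun _ => hbc, fun h => by simp [h2'] at h⟩
        · exact ⟨fun _ => hce, fun h => by simp [h3'] at h⟩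
      · simp [Fin.sum_univ_four]; ring
    · refine ⟨![c, e, a, b], pw_of R d' _ fun i => ?_, ?_⟩
      · fin_cases i
        · exact ⟨fun _ => hce, fun h => by simp [h0] at h⟩
        · exact ⟨fun h => by simp [h1'] at h, fun _ => hae⟩
        · exact ⟨fun _ => hab, fun h => by simp [h2'] at h⟩
        · exact ⟨fun _ => hbc, fun h => by simp [h3'] at h⟩
      · simp [Fin.sum_univ_four]; ring
  obtain ⟨f', hf', hs⟩ := key
  obtain ⟨f, hf, hff⟩ := h3 V R f' hf'
  have h4 := hw f hf
  rw [hff w, hs] at h4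
  exact h4

end Pool.Agent.W303.N2
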